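import Pool.Agent.SC.Cov

/-!
# Project FF: an element of the decomposition group which moves a root whose value is new
-/

set_option autoImplicit false

namespace Pool.Agent.Helper88.FF

open Polynomial

/-- values of two sums with the same values, all different -/
theorem val_sum88 {C : Type} [Field C] {Γ : Type} [LinearOrderedCommGroupWithZero Γ] (v : Valuation C Γ)
    (f g : ℕ → C) (s : Finset ℕ) (hfg : ∀ i ∈ s, v (f i) = v (g i))
    (hd : ∀ i ∈ s, ∀ j ∈ s, i ≠ j → v (f i) = v (f j) → f i = 0) :
    v (∑ i ∈ s, f i) = v (∑ i ∈ s, g i) ∧ (v (∑ i ∈ s, f i) = 0 ∨ ∃ j ∈ s, v (∑ i ∈ s, f i) = v (f j)) := by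
  induction s using Finset.induction_on with
  | empty => simp
  | insert a s ha ih =>
    have ih' := ih (fun i hi => hfg i (Finset.mem_insert_of_mem hi))
      (fun i hi j hj => hd i (Finset.mem_insert_of_mem hi) j (Finset.mem_insert_of_mem hj))
    rw [Finset.sum_insert ha, Finset.sum_insert ha]
    have hga := hfg a (Finset.mem_insert_self _ _)
    by_cases h0 : f a = 0
    · have h1 : g a = 0 := by
        rw [h0, map_zero] at hga
        exact (v.zero_iff).1 hga.symm
      rw [h0, h1, zero_add, zero_add]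
      refine ⟨ih'.1, ih'.2.imp id ?_⟩
      rintro ⟨j, hj, h⟩
      exact ⟨j, Finset.mem_insert_of_mem hj, h⟩
    · have hne : v (f a) ≠ v (∑ i ∈ s, f i) := by
        intro h
        rcases ih'.2 with h1 | ⟨j, hj, h1⟩
        · rw [h1] at h
          exact h0 ((v.zero_iff).1 h)
        · refine h0 (hd a (Finset.mem_insert_self _ _) j (Finset.mem_insert_of_mem hj) ?_ (h.trans h1))
          rintro rfl
          exact ha hj
      have hne' : v (g a) ≠ v (∑ i ∈ s, g i) := by
        rw [← hga, ← ih'.1]
        exact hne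
      rw [Valuation.map_add_of_distinct_val v hne, Valuation.map_add_of_distinct_val v hne', hga, ih'.1]
      refine ⟨rfl, ?_⟩
      rcases le_total (v (g a)) (v (∑ i ∈ s, g i)) with h | h
      · rw [max_eq_right h, ← ih'.1]
        refine ih'.2.imp id ?_
        rintro ⟨j, hj, h⟩
        exact ⟨j, Finset.mem_insert_of_mem hj, h⟩
      · rw [max_eq_left h, ← hga]
        exact Or.inr ⟨a, Finset.mem_insert_self _ _, rfl⟩

/-- **If no element of `M` has the value of `r` at `W` then some element of the decomposition group of `W` over `M`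
moves `r`.** -/
theorem ram {C : Type} [Field C] [IsAlgClosed C] [CharZero C] {M : Subfield C} (halg : ∀ z : C, IsAlgebraic M z)
    {l : ℕ} (hl : l.Prime) (hz : ∀ z : C, z ^ l = 1 → z ∈ M) {r : C} (hr0 : r ≠ 0) (hr : r ^ l ∈ M)
    (W : ValuationSubring C) (hW : ∀ z ∈ M, W.valuation z ^ l ≠ W.valuation (r ^ l)) :
    ∃ g : C ≃+* C, (∀ z ∈ M, g z = z) ∧ (∀ z, g z ∈ W ↔ z ∈ W) ∧ g r ≠ r := by
  have i1 : Algebra.IsAlgebraic M C := ⟨halg⟩
  have i2 : IsAlgClosure M C := ⟨inferInstance, inferInstance⟩
  have i3 : IsGalois M C := inferInstance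
  have hl0 : l ≠ 0 := hl.ne_zero
  have hrM : r ∉ M := fun h => hW r h (map_pow _ _ _).symm
  -- an automorphism which moves `r`
  obtain ⟨σ, hσ⟩ : ∃ σ : C ≃ₐ[M] C, σ r ≠ r := by
    by_contra hcon
    push Not at hcon
    obtain ⟨c, hc⟩ := (InfiniteGalois.mem_range_algebraMap_iff_fixed (k := M) r).2 hcon
    exact hrM (hc ▸ c.2)
  set ζ : C := σ r / r with hζ
  have hσr : σ r = ζ * r := by
    rw [hζ]
    field_simp
  have hζl : ζ ^ l = 1 := by
    rw [hζ, div_pow, ← map_pow]
    have : σ (r ^ l) = r ^ l := σ.commutes (⟨r ^ l, hr⟩ : M)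
    rw [this]
    exact div_self (pow_ne_zero _ hr0)
  have hζM := hz ζ hζl
  have hζ1 : W.valuation ζ = 1 := by
    have h1 : W.valuation ζ ^ l = 1 := by rw [← map_pow, hζl, map_one]
    exact (pow_eq_one_iff_of_nonneg zero_le hl0).1 h1
  -- values of the monomials
  have hdist : ∀ a b : C, a ∈ M → b ∈ M → ∀ i j : ℕ, i < l → j < l → i < j →
      W.valuation (a * r ^ i) = W.valuation (b * r ^ j) → a = 0 := by
    intro a b ha hb i j hi hj hij h
    by_contra ha0
    have hva : W.valuation a ≠ 0 := (Valuation.ne_zero_iff _).2 ha0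
    have hvr : W.valuation r ≠ 0 := (Valuation.ne_zero_iff _).2 hr0
    have hb0 : b ≠ 0 := by
      rintro rfl
      rw [zero_mul, map_zero, map_mul, map_pow] at h
      exact mul_ne_zero hva (pow_ne_zero _ hvr) h
    have hvb : W.valuation b ≠ 0 := (Valuation.ne_zero_iff _).2 hb0
    set m : ℕ := j - i with hm
    have hm1 : W.valuation (a / b) = W.valuation r ^ m := by
      rw [map_div₀, div_eq_iff hvb]
      have h2 : j = i + m := by omega
      rw [map_mul, map_mul, map_pow, map_pow, h2, pow_add] at h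
      have h3 : W.valuation r ^ i ≠ 0 := pow_ne_zero _ hvr
      have h4 : W.valuation a * W.valuation r ^ i = (W.valuation r ^ m * W.valuation b) * W.valuation r ^ i := by
        rw [h]
        ac_rfl
      exact mul_right_cancel₀ h3 h4
    have hcop : Nat.Coprime m l := by
      rw [Nat.coprime_comm, hl.coprime_iff_not_dvd]
      intro hd
      have := Nat.le_of_dvd (by omega) hd
      omega
    have hbez : (m : ℤ) * Nat.gcdA m l + (l : ℤ) * Nat.gcdB m l = 1 := by
      have := Nat.gcd_eq_gcd_ab m l
      rw [hcop] at this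
      exact_mod_cast this.symm
    set z : C := (a / b) ^ (Nat.gcdA m l) * (r ^ l) ^ (Nat.gcdB m l) with hzdef
    have hzM : z ∈ M := M.mul_mem (M.zpow_mem (M.div_mem ha hb) _) (M.zpow_mem hr _)
    refine hW z hzM ?_
    have hvz : W.valuation z = W.valuation r := by
      rw [hzdef, map_mul, map_zpow₀, map_zpow₀, hm1, map_pow, ← zpow_natCast, ← zpow_natCast, ← zpow_mul, ← zpow_mul,
        ← zpow_add₀ hvr, hbez, zpow_one]
    rw [hvz, map_pow]
  -- the values of elements of `M(r)` are preserved by `σ`
  set K1 : IntermediateField M C := IntermediateField.adjoin M {r} with hK1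
  have hint : IsIntegral M r := (halg r).isIntegral
  have hK : ∀ c ∈ K1, W.valuation (σ c) = W.valuation c := by
    intro c hc
    obtain ⟨p, hp⟩ : ∃ p : M[X], c = aeval r p := by
      have h1 : c ∈ (IntermediateField.adjoin M {r}).toSubalgebra := hc
      rw [IntermediateField.adjoin_simple_toSubalgebra_of_isAlgebraic (halg r),
        Algebra.adjoin_singleton_eq_range_aeval] at h1
      obtain ⟨p, hp⟩ := h1
      exact ⟨p, hp.symm⟩
    set q : M[X] := X ^ l - Polynomial.C (⟨r ^ l, hr⟩ : M) with hq
    have hqm : q.Monic := monic_X_pow_sub_C _ hl0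
    have hqd : q.natDegree = l := natDegree_X_pow_sub_C
    have hqr : aeval r q = 0 := by
      rw [hq, map_sub, map_pow, aeval_X, aeval_C]
      exact sub_self _
    have hp2 : c = aeval r (p %ₘ q) := by
      rw [hp]
      conv_lhs => rw [← modByMonic_add_div p q]
      rw [map_add, map_mul, hqr, zero_mul, add_zero]
    have hdeg : (p %ₘ q).natDegree < l := by
      rw [← hqd]
      exact natDegree_modByMonic_lt p hqm (by
        intro h
        rw [h, natDegree_one] at hqd
        exact hl0 hqd.symm)
    have hsum : c = ∑ i ∈ Finset.range l, ((p %ₘ q).coeff i : C) * r ^ i := by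
      rw [hp2, aeval_eq_sum_range' hdeg]
      refine Finset.sum_congr rfl fun i _ => ?_
      rw [Algebra.smul_def]
      rfl
    have hσc : σ c = ∑ i ∈ Finset.range l, ((p %ₘ q).coeff i : C) * (ζ * r) ^ i := by
      conv_lhs => rw [hsum]
      rw [map_sum]
      refine Finset.sum_congr rfl fun i _ => ?_
      rw [map_mul, map_pow, hσr]
      congr 1
      exact σ.commutes _
    have hval : ∀ i ∈ Finset.range l, W.valuation (((p %ₘ q).coeff i : C) * r ^ i) =
        W.valuation (((p %ₘ q).coeff i : C) * (ζ * r) ^ i) := by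
      intro i _
      rw [map_mul, map_mul, map_pow, map_pow, map_mul, hζ1, one_mul]
    have h := (val_sum88 W.valuation (fun i => ((p %ₘ q).coeff i : C) * r ^ i)
      (fun i => ((p %ₘ q).coeff i : C) * (ζ * r) ^ i) (Finset.range l) hval (fun i hi j hj hij h => by
        rw [Finset.mem_range] at hi hj
        rcases lt_or_gt_of_ne hij with h1 | h1
        · rw [hdist _ _ (Subtype.mem _) (Subtype.mem _) i j hi hj h1 h, zero_mul]
        · have h2 := hdist _ _ (Subtype.mem _) (Subtype.mem _) j i hj hi h1 h.symm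
          have h3 : W.valuation (((p %ₘ q).coeff i : C) * r ^ i) = 0 := by
            rw [h, h2, zero_mul, map_zero]
          exact (Valuation.zero_iff _).1 h3)).1
    rw [hσc, ← h, ← hsum]
  -- conjugate over `M(r)`
  obtain ⟨τ, hτ⟩ := Pool.Agent.SC.exists_conj_val (L := K1) W (W.comap (σ : C →+* C)) (fun c => by
    rw [ValuationSubring.mem_comap]
    have h := hK c.1 c.2
    rw [← ValuationSubring.valuation_le_one_iff, ← ValuationSubring.valuation_le_one_iff]
    have e : W.valuation ((σ : C →+* C) (algebraMap K1 C c)) = W.valuation (algebraMap K1 C c) := h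
    rw [e])
  refine ⟨τ.toRingEquiv.trans σ.toRingEquiv, fun z hz => ?_, fun z => hτ z, ?_⟩
  · change σ (τ z) = z
    have h1 : τ z = z := τ.commutes (⟨z, K1.algebraMap_mem ⟨z, hz⟩⟩ : K1)
    rw [h1]
    exact σ.commutes (⟨z, hz⟩ : M)
  · change σ (τ r) ≠ r
    have h1 : τ r = r := τ.commutes (⟨r, IntermediateField.mem_adjoin_simple_self M r⟩ : K1)
    rw [h1]
    exact hσ

end Pool.Agent.Helper88.FF
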