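import Pool.Agent.Helper88.FF.Ram
import Pool.Agent.Helper40.FF.BCFK

/-!
# Project FF: block BCFK
-/

set_option autoImplicit false

namespace Pool.Agent.Helper88.FF

open Pool.Agent.FFX Pool.Agent.FF40

/-- **Block BCFK** (helper40's glue, helper59's partA, ram). -/
theorem stmtBCFK : StmtBCFK :=
  bcfk_of_ram (fun halg _ hl hz _ hr0 hr W hW => ram halg hl hz hr0 hr W hW)

end Pool.Agent.Helper88.FF
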